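import Mathlib

set_option autoImplicit false

/-!
Project PM (helper213), definitions.  Row MP_64c6ca_gt: every homotopy type is the homotopy type of
the category of weak equivalences of a partial model category.
-/

universe v u w

open CategoryTheory Limits Opposite Simplicial HomotopicalAlgebra MonoidalCategory
open SSet.modelCategoryQuillen

namespace Pool.Agent.Q213.PM

/-! ### Weak homotopy equivalences of simplicial sets -/

/-- `f` and `g` are the two ends of a simplicial homotopy `X ⊗ Δ[1] ⟶ K`. -/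
def Hpc {X K : SSet.{u}} (f g : X ⟶ K) : Prop :=
  ∃ H : X ⊗ Δ[1] ⟶ K, SSet.ι₀ ≫ H = f ∧ SSet.ι₁ ≫ H = g

theorem Hpc.pre {X Y K : SSet.{u}} (f : X ⟶ Y) {a b : Y ⟶ K} (h : Hpc a b) :
    Hpc (f ≫ a) (f ≫ b) := by
  obtain ⟨H, h0, h1⟩ := h
  refine ⟨f ▷ Δ[1] ≫ H, ?_, ?_⟩
  · rw [← h0]; simp
  · rw [← h1]; simp

/-- Homotopy classes of maps `X ⟶ K` (for the equivalence relation generated by `Hpc`; if `K` is a
Kan complex then `Hpc` is itself an equivalence relation). -/
def HC (X K : SSet.{u}) : Type u := Quot (fun f g : X ⟶ K => Hpc f g)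

/-- Precomposition on homotopy classes. -/
def HC.pre {X Y : SSet.{u}} (f : X ⟶ Y) (K : SSet.{u}) : HC Y K → HC X K :=
  Quot.map (fun a => f ≫ a) (fun _ _ h => h.pre f)

/-- Weak homotopy equivalences of simplicial sets: for every Kan complex `K` precomposition with `f`
is a bijection from the homotopy classes of maps `Y ⟶ K` to the homotopy classes of maps
`X ⟶ K`. -/
def WeakEq {X Y : SSet.{u}} (f : X ⟶ Y) : Prop :=
  ∀ K : SSet.{u}, SSet.KanComplex K → Function.Bijective (HC.pre f K)

/-! ### Partial model categories -/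

/-- Structure of a partial model category on a category `M`: the classes `W` of weak equivalences,
`C` of acyclic cofibrations, `F` of acyclic fibrations. -/
structure PartialModel (M : Type u) [Category.{v} M] where
  /-- weak equivalences -/
  W : MorphismProperty M
  /-- acyclic cofibrations -/
  C : MorphismProperty M
  /-- acyclic fibrations -/
  F : MorphismProperty M
  /-- `W` is a subcategory which contains all objects -/
  mult : W.IsMultiplicative
  C_le : C ≤ W
  F_le : F ≤ W
  /-- two out of six -/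
  two_of_six : ∀ {X Y Z T : M} (r : X ⟶ Y) (s : Y ⟶ Z) (t : Z ⟶ T), W (r ≫ s) → W (s ≫ t) →
    W r ∧ W s ∧ W t ∧ W (r ≫ s ≫ t)
  /-- every map in `C` has a pushout along every map -/
  hasPushout : ∀ {A B A' : M} (f : A ⟶ B) (g : A ⟶ A'), C f → HasPushout f g
  /-- pushouts of maps in `C` are in `C` -/
  pushout_mem : ∀ {A B A' P : M} {f : A ⟶ B} {g : A ⟶ A'} {g' : B ⟶ P} {f' : A' ⟶ P},
    IsPushout f g g' f' → C f → C f'
  /-- every map in `F` has a pullback along every map -/
  hasPullback : ∀ {E B B' : M} (f : E ⟶ B) (g : B' ⟶ B), F f → HasPullback f g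
  /-- pullbacks of maps in `F` are in `F` -/
  pullback_mem : ∀ {E B B' P : M} {f : E ⟶ B} {g : B' ⟶ B} {g' : P ⟶ E} {f' : P ⟶ B'},
    IsPullback g' f' f g → F f → F f'
  /-- the middle object of the functorial factorization of the maps in `W` -/
  Z : Arrow (WideSubcategory W) ⥤ M
  /-- the first map of the functorial factorization -/
  i : Arrow.leftFunc ⋙ wideSubcategoryInclusion W ⟶ Z
  /-- the second map of the functorial factorization -/
  p : Z ⟶ Arrow.rightFunc ⋙ wideSubcategoryInclusion W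
  fac : ∀ g : Arrow (WideSubcategory W), i.app g ≫ p.app g = g.hom.hom
  i_mem : ∀ g, C (i.app g)
  p_mem : ∀ g, F (p.app g)

/-! ### Auxiliary notions for the proof: simplicial sets -/

/-- Kan fibrations with a Kan complex as target. -/
def KF : MorphismProperty SSet.{u} := fun _ Y q => Fibration q ∧ SSet.KanComplex Y

/-- Maps with the left lifting property with respect to all Kan fibrations between Kan
complexes. -/
def Ac : MorphismProperty SSet.{u} := KF.llp

/-- Contractible simplicial sets: some vertex `Δ[0] ⟶ X` is in `Ac`. -/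
def Contr (X : SSet.{u}) : Prop := ∃ x : Δ[0] ⟶ X, Ac x

/-- Maps of simplicial sets with the right lifting property with respect to all monomorphisms. -/
def TF {X Y : SSet.{u}} (p : X ⟶ Y) : Prop := (MorphismProperty.monomorphisms SSet.{u}).rlp p

/-! ### Auxiliary notions for the proof: presheaves -/

variable {A : Type u} [SmallCategory A]

/-- The category of elements of a presheaf `P`: pairs `(a, x)`, `x ∈ P(a)`. -/
structure El (P : Aᵒᵖ ⥤ Type u) : Type u where
  pt : A
  el : P.obj (op pt)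

/-- Maps `(a, x) ⟶ (b, y)`: the maps `f : a ⟶ b` with `f^* y = x`. -/
@[ext]
structure El.Hom {P : Aᵒᵖ ⥤ Type u} (x y : El P) : Type u where
  f : x.pt ⟶ y.pt
  w : P.map f.op y.el = x.el

instance (P : Aᵒᵖ ⥤ Type u) : Category.{u} (El P) where
  Hom x y := El.Hom x y
  id x := ⟨𝟙 _, by simp⟩
  comp f g := ⟨f.f ≫ g.f, by simp [g.w, f.w]⟩
  id_comp f := El.Hom.ext (Category.id_comp _)
  comp_id f := El.Hom.ext (Category.comp_id _)
  assoc f g h := El.Hom.ext (Category.assoc _ _ _)

@[ext]
theorem El.hom_ext {P : Aᵒᵖ ⥤ Type u} {x y : El P} {f g : x ⟶ y} (h : f.f = g.f) : f = g :=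
  El.Hom.ext h

@[simp] theorem El.id_f {P : Aᵒᵖ ⥤ Type u} (x : El P) : El.Hom.f (𝟙 x) = 𝟙 x.pt := rfl

@[simp] theorem El.comp_f {P : Aᵒᵖ ⥤ Type u} {x y z : El P} (f : x ⟶ y) (g : y ⟶ z) :
    (f ≫ g).f = f.f ≫ g.f := rfl

/-- The functor of categories of elements given by a map of presheaves. -/
def El.map {P Q : Aᵒᵖ ⥤ Type u} (φ : P ⟶ Q) : El P ⥤ El Q where
  obj x := ⟨x.pt, φ.app _ x.el⟩
  map {x y} f := ⟨f.f, by
    have := congrArg (fun g => g y.el) (φ.naturality f.f.op)
    simp only [types_comp_apply] at this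
    rw [← this, f.w]⟩
  map_id _ := rfl
  map_comp _ _ := rfl

/-- A presheaf is aspherical if the nerve of its category of elements is contractible. -/
def Asph (P : Aᵒᵖ ⥤ Type u) : Prop := Contr (nerve (El P))

/-- The total category of a family of presheaves `U` indexed by a category `M`: triples `(m, a, x)`,
`x ∈ U(m)(a)`. -/
structure Tot {M : Type w} [Category.{v} M] (U : M ⥤ Aᵒᵖ ⥤ Type u) : Type (max u w) where
  m : M
  a : A
  x : (U.obj m).obj (op a)

/-- Maps `(m, a, x) ⟶ (m', a', x')`: pairs `f : m ⟶ m'`, `g : a ⟶ a'` with `f x = g^* x'`. -/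
@[ext]
structure Tot.Hom {M : Type w} [Category.{v} M] {U : M ⥤ Aᵒᵖ ⥤ Type u} (x y : Tot U) :
    Type (max u v) where
  f : x.m ⟶ y.m
  g : x.a ⟶ y.a
  w : (U.map f).app (op x.a) x.x = (U.obj y.m).map g.op y.x

instance {M : Type w} [Category.{v} M] (U : M ⥤ Aᵒᵖ ⥤ Type u) : Category.{max u v} (Tot U) where
  Hom x y := Tot.Hom x y
  id x := ⟨𝟙 _, 𝟙 _, by simp⟩
  comp {x y z} f g := ⟨f.f ≫ g.f, f.g ≫ g.g, by
    have h1 := f.w
    have h2 := g.w
    have h3 := congrArg (fun k => k y.x) ((U.map g.f).naturality f.g.op)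
    simp only [types_comp_apply] at h3
    simp only [Functor.map_comp, NatTrans.comp_app, types_comp_apply, op_comp]
    rw [h1, h3, h2]⟩
  id_comp f := Tot.Hom.ext (Category.id_comp _) (Category.id_comp _)
  comp_id f := Tot.Hom.ext (Category.comp_id _) (Category.comp_id _)
  assoc f g h := Tot.Hom.ext (Category.assoc _ _ _) (Category.assoc _ _ _)

@[ext]
theorem Tot.hom_ext {M : Type w} [Category.{v} M] {U : M ⥤ Aᵒᵖ ⥤ Type u} {x y : Tot U}
    {f g : x ⟶ y} (h : f.f = g.f) (h' : f.g = g.g) : f = g := Tot.Hom.ext h h'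

/-- The projection of the total category to `M`. -/
def Tot.fst {M : Type w} [Category.{v} M] (U : M ⥤ Aᵒᵖ ⥤ Type u) : Tot U ⥤ M where
  obj x := x.m
  map f := f.f
  map_id _ := rfl
  map_comp _ _ := rfl

variable (A) in
/-- An interval for presheaves on `A`: a presheaf `I` with two disjoint points `zero`, `one` and
with a maximum, such that the products `a × I` of the objects of `A` with `I` are representable by
`om a` (`pi` is the projection to `a`, `tau` the projection to `I`, `sec a t` the map `(id, t)`). -/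
structure Itv where
  I : Aᵒᵖ ⥤ Type u
  zero : ∀ a : A, I.obj (op a)
  one : ∀ a : A, I.obj (op a)
  map_zero : ∀ {a b : A} (f : a ⟶ b), I.map f.op (zero b) = zero a
  map_one : ∀ {a b : A} (f : a ⟶ b), I.map f.op (one b) = one a
  ne : ∀ a, zero a ≠ one a
  sup : ∀ {a : A}, I.obj (op a) → I.obj (op a) → I.obj (op a)
  map_sup : ∀ {a b : A} (f : a ⟶ b) (s t : I.obj (op b)),
    I.map f.op (sup s t) = sup (I.map f.op s) (I.map f.op t)
  sup_zero : ∀ {a : A} (s : I.obj (op a)), sup s (zero a) = s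
  sup_one : ∀ {a : A} (s : I.obj (op a)), sup s (one a) = one a
  one_sup : ∀ {a : A} (s : I.obj (op a)), sup (one a) s = one a
  om : A ⥤ A
  pi : om ⟶ 𝟭 A
  tau : ∀ a : A, I.obj (op (om.obj a))
  map_tau : ∀ {a b : A} (f : a ⟶ b), I.map (om.map f).op (tau b) = tau a
  sec : ∀ (a : A) (_ : I.obj (op a)), a ⟶ om.obj a
  sec_pi : ∀ (a : A) (t : I.obj (op a)), sec a t ≫ pi.app a = 𝟙 a
  sec_tau : ∀ (a : A) (t : I.obj (op a)), I.map (sec a t).op (tau a) = t
  sec_nat : ∀ {a b : A} (f : a ⟶ b) (t : I.obj (op b)),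
    sec a (I.map f.op t) ≫ om.map f = f ≫ sec b t

/-- `p : E ⟶ B` is shrinkable: it has a section `s` and there is a homotopy
`h : E × I ⟶ E` over `B` from the identity to `p ≫ s`. -/
def Shr (J : Itv A) {E B : Aᵒᵖ ⥤ Type u} (p : E ⟶ B) : Prop :=
  ∃ (s : B ⟶ E) (h : ∀ a : A, E.obj (op a) → J.I.obj (op a) → E.obj (op a)),
    s ≫ p = 𝟙 B ∧
    (∀ {a b : A} (f : a ⟶ b) (x : E.obj (op b)) (t : J.I.obj (op b)),
      E.map f.op (h b x t) = h a (E.map f.op x) (J.I.map f.op t)) ∧
    (∀ (a : A) (x : E.obj (op a)), h a x (J.zero a) = x) ∧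
    (∀ (a : A) (x : E.obj (op a)), h a x (J.one a) = s.app _ (p.app _ x)) ∧
    (∀ (a : A) (x : E.obj (op a)) (t : J.I.obj (op a)), p.app _ (h a x t) = p.app _ x)

/-! ### Classes of maps given by a class of objects -/

variable {K : Type w} [Category.{v} K]

/-- Maps `f : A ⟶ B` between objects of `Q` such that all pushouts of `B` along maps to objects of `Q`
are in `Q`. -/
def CQ (Q : ObjectProperty K) : MorphismProperty K := fun A B f =>
  Q A ∧ Q B ∧ ∀ {A' P : K} {g : A ⟶ A'} {g' : B ⟶ P} {f' : A' ⟶ P}, Q A' → IsPushout f g g' f' → Q P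

/-- Maps `f : E ⟶ B` between objects of `Q` such that all pullbacks of `E` along maps from objects of
`Q` are in `Q`. -/
def FQ (Q : ObjectProperty K) : MorphismProperty K := fun E B f =>
  Q E ∧ Q B ∧ ∀ {B' P : K} {g : B' ⟶ B} {g' : P ⟶ E} {f' : P ⟶ B'}, Q B' → IsPullback g' f' f g → Q P

end Pool.Agent.Q213.PM
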