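import Pool.Agent.Q213.PM.Stm

set_option autoImplicit false

/-! Project PM: assembly of the main theorem from the statements of `Stm`. -/

universe u

open CategoryTheory Limits Opposite Simplicial HomotopicalAlgebra MonoidalCategory
open SSet.modelCategoryQuillen

namespace Pool.Agent.Q213.PM

attribute [instance] PartialModel.mult

theorem asph_iso (hZR : S_ZR.{u}) {A : Type u} [SmallCategory A] {P P' : Aᵒᵖ ⥤ Type u} (e : P ≅ P')
    (h : Asph P) : Asph P' := by
  refine hZR (El.map e.hom) (El.map e.inv) ?_ h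
  let α : El.map e.inv ⋙ El.map e.hom ⟶ 𝟭 (El P') :=
    { app := fun x => ⟨𝟙 _, by simp [El.map]; rfl⟩
      naturality := fun x y f => by
        apply El.hom_ext
        simp [El.map] }
  exact Zigzag.of_hom α

/-- The main theorem, from the statements of `Stm`. -/
theorem main_of (hAX : S_AX.{u}) (hZW : S_ZW.{u}) (hZR : S_ZR.{u}) (hCYL : S_CYL.{u})
    (hSH : S_SH.{u}) (hSHP : S_SHP.{u}) (hGL : S_GL.{u}) (hREP : S_REP.{u}) (hSM : S_SM.{u})
    (hPMS : S_PMS.{u}) (hTA : S_TA.{u}) (hWC : S_WC.{u}) (D : Type u) [SmallCategory D] :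
    ∃ (M : Type u) (_ : SmallCategory M) (S : PartialModel M) (G : D ⥤ WideSubcategory S.W),
      WeakEq (nerveMap G) ∧ S.W = ⊤ := by
  obtain ⟨A, iA, J, F, G0, z1, z2⟩ := hAX D
  obtain ⟨Z, i, p, hfac, hmono, hshr⟩ := hCYL (A := A) J
  let Q : ObjectProperty (Aᵒᵖ ⥤ Type u) := fun P => Asph P
  have : Q.IsClosedUnderIsomorphisms := ⟨fun e h => asph_iso hZR e h⟩
  have hZ : ∀ g : Arrow (Aᵒᵖ ⥤ Type u), Q g.left → Q g.right → Q (Z.obj g) :=
    fun g _ hr => hSH J (p.app g) (hshr g) hr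
  have hCF : ∀ g : Arrow (Aᵒᵖ ⥤ Type u), Q g.left → Q g.right →
      CQ Q (i.app g) ∧ FQ Q (p.app g) := by
    intro g hl hr
    refine ⟨⟨hl, hZ g hl hr, ?_⟩, ⟨hZ g hl hr, hr, ?_⟩⟩
    · intro A' P f g' f' hA' hpo
      exact hGL (i.app g) f g' f' (hmono g) hpo hl (hZ g hl hr) hA'
    · intro B' P f g' f' hB' hpb
      exact hSH J f' (hSHP J (p.app g) f g' f' hpb (hshr g)) hB'
  obtain ⟨M, iM, U, hfull, hfaith, hQU, hX, hclo⟩ :=
    hSM Q Z hZ (fun a : A => yoneda.obj a) (fun a => hREP a)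
  obtain ⟨S, hS⟩ := hPMS Q Z i p hfac hCF U hQU hclo
  choose m hm using hX
  let e : ∀ a, U.obj (m a) ≅ yoneda.obj a := fun a => (hm a).some
  let G1 : A ⥤ M :=
    { obj := m
      map := fun {a b} f => U.preimage ((e a).hom ≫ yoneda.map f ≫ (e b).inv)
      map_id := fun a => U.map_injective (by simp)
      map_comp := fun {a b c} f g => U.map_injective (by simp) }
  let ε : G1 ⋙ U ≅ yoneda := NatIso.ofComponents e (fun {a b} f => by simp [G1])
  have hG1 : WeakEq (nerveMap G1) := hTA U G1 ε hQU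
  have hW : ∀ {x y : M} (f : x ⟶ y), S.W f := fun {x y} f => by
    have h1 : S.W f = (⊤ : MorphismProperty M) f := congrFun (congrFun (congrFun hS x) y) f
    rw [h1]; trivial
  let I1 : M ⥤ WideSubcategory S.W :=
    { obj := fun x => ⟨x⟩
      map := fun {x y} f => ⟨f, hW f⟩
      map_id := fun _ => rfl
      map_comp := fun _ _ => rfl }
  have hI1 : WeakEq (nerveMap I1) := by
    refine hZW I1 (wideSubcategoryInclusion S.W) ?_ ?_
    · exact Zigzag.refl _
    · exact Zigzag.refl _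
  refine ⟨M, iM, S, F ⋙ G1 ⋙ I1, ?_, hS⟩
  have h1 : nerveMap (F ⋙ G1 ⋙ I1) = nerveMap F ≫ nerveMap G1 ≫ nerveMap I1 := rfl
  rw [h1]
  exact hWC _ _ (hZW F G0 z1 z2) (hWC _ _ hG1 hI1)

end Pool.Agent.Q213.PM
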