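import Pool.Agent.Q213.PM.Stm

set_option autoImplicit false

/-! Project PM, jobs HE and H0. -/

universe u

open CategoryTheory Limits Opposite Simplicial HomotopicalAlgebra MonoidalCategory MonoidalClosed
open SSet.modelCategoryQuillen CartesianMonoidalCategory

namespace Pool.Agent.Q213.PM

/-- The inclusion of a horn of `Δ[1]` is constant. -/
theorem horn_const (i : Fin 2) : (SSet.horn.{u} 1 i).ι =
    SSet.const (SSet.stdSimplex.obj₀Equiv.{u}.symm i) := by
  ext ⟨m⟩ ⟨s, hs⟩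
  induction m using SimplexCategory.rec with | _ m
  have h : ∀ j : Fin (m + 1), s j = i := by
    intro j
    by_contra hne
    apply (SSet.mem_horn_iff i s).1 hs
    ext k
    simp only [Set.mem_union, Set.mem_range, Set.mem_singleton_iff, Set.mem_univ, iff_true]
    by_cases hk : k = i
    · exact Or.inr hk
    · refine Or.inl ⟨j, ?_⟩
      have h1 : s j ≠ i := hne
      change s j = k
      omega
  apply SSet.stdSimplex.ext
  intro j
  exact h j

theorem whisker_horn (X : SSet.{u}) : X ◁ (SSet.horn.{u} 1 0).ι = fst X _ ≫ SSet.ι₀ := by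
  rw [horn_const]
  rfl

theorem whisker_horn' (X : SSet.{u}) : X ◁ (SSet.horn.{u} 1 1).ι = fst X _ ≫ SSet.ι₁ := by
  rw [horn_const]
  rfl

/-- The section `X ⟶ X ⊗ Λ[1, 0]`. -/
theorem horn_sec (i : Fin 2) (X : SSet.{u}) : ∃ s : X ⟶ X ⊗ (SSet.horn.{u} 1 i : SSet.{u}),
    s ≫ fst X _ = 𝟙 X := by
  refine ⟨CartesianMonoidalCategory.lift (𝟙 X) (SSet.const ⟨SSet.stdSimplex.obj₀Equiv.{u}.symm i, ?_⟩), by simp⟩
  rw [SSet.mem_horn_iff]
  intro h
  have h1 : (1 - i : Fin 2) ∈ (Set.univ : Set (Fin 2)) := trivial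
  rw [← h] at h1
  rcases h1 with ⟨j, hj⟩ | h1
  · have : i = 1 - i := hj
    omega
  · have : 1 - i = i := h1
    omega

/-- Lifting from a pushout product. -/
theorem pp_lift {A B S T K L : SSet.{u}} {i : A ⟶ B} {j : S ⟶ T} {q : K ⟶ L}
    (sq : (curriedTensor SSet.{u}).PushoutObjObj i j) (hL : HasLiftingProperty sq.ι q)
    (b : B ⊗ S ⟶ K) (h : A ⊗ T ⟶ K) (g : B ⊗ T ⟶ L)
    (e1 : i ▷ S ≫ b = A ◁ j ≫ h) (e2 : b ≫ q = B ◁ j ≫ g) (e3 : h ≫ q = i ▷ T ≫ g) :
    ∃ H : B ⊗ T ⟶ K, B ◁ j ≫ H = b ∧ i ▷ T ≫ H = h ∧ H ≫ q = g := by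
  let t : sq.pt ⟶ K := sq.isPushout.desc b h e1
  have t1 : sq.inl ≫ t = b := sq.isPushout.inl_desc _ _ _
  have t2 : sq.inr ≫ t = h := sq.isPushout.inr_desc _ _ _
  have hsq : CommSq t sq.ι q g := ⟨by
    apply sq.hom_ext
    · rw [← Category.assoc, t1, ← Category.assoc, sq.inl_ι]
      exact e2
    · rw [← Category.assoc, t2, ← Category.assoc, sq.inr_ι]
      exact e3⟩
  refine ⟨hsq.lift, ?_, ?_, hsq.fac_right⟩
  · have h1 : B ◁ j = sq.inl ≫ sq.ι := sq.inl_ι.symm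
    rw [h1, Category.assoc, hsq.fac_left, t1]
  · have h1 : i ▷ T = sq.inr ≫ sq.ι := sq.inr_ι.symm
    rw [h1, Category.assoc, hsq.fac_left, t2]

theorem h0 : S_H0.{u} := by
  intro A B K L i q b h g hi hq e1 e2 e3
  let sq := Functor.PushoutObjObj.ofHasPushout (curriedTensor SSet.{u}) i (SSet.horn.{u} 1 0).ι
  have hL : HasLiftingProperty sq.ι q := by
    have h1 : SSet.anodyneExtensions sq.ι :=
      SSet.anodyneExtensions_pushoutObjObjι sq (SSet.anodyneExtensions.horn_ι (n := 1) 0)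
    exact h1 _ hq.mem
  obtain ⟨H, H1, H2, H3⟩ := pp_lift sq hL (fst B _ ≫ b) h g
    (by rw [whisker_horn, Category.assoc, e1]; simp)
    (by rw [whisker_horn, Category.assoc, Category.assoc, e2]) e3.symm
  refine ⟨H, ?_, H2, H3⟩
  obtain ⟨s, hs⟩ := horn_sec 0 B
  rw [whisker_horn, Category.assoc] at H1
  have h2 := congrArg (fun k => s ≫ k) H1
  simp only [← Category.assoc] at h2
  rw [hs] at h2
  simpa using h2

theorem h1 : S_H1.{u} := by
  intro A B K L i q b h g hi hq e1 e2 e3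
  let sq := Functor.PushoutObjObj.ofHasPushout (curriedTensor SSet.{u}) i (SSet.horn.{u} 1 1).ι
  have hL : HasLiftingProperty sq.ι q := by
    have h1 : SSet.anodyneExtensions sq.ι :=
      SSet.anodyneExtensions_pushoutObjObjι sq (SSet.anodyneExtensions.horn_ι (n := 1) 1)
    exact h1 _ hq.mem
  obtain ⟨H, H1, H2, H3⟩ := pp_lift sq hL (fst B _ ≫ b) h g
    (by rw [whisker_horn', Category.assoc, e1]; simp)
    (by rw [whisker_horn', Category.assoc, Category.assoc, e2]) e3.symm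
  refine ⟨H, ?_, H2, H3⟩
  obtain ⟨s, hs⟩ := horn_sec 1 B
  rw [whisker_horn', Category.assoc] at H1
  have h2 := congrArg (fun k => s ≫ k) H1
  simp only [← Category.assoc] at h2
  rw [hs] at h2
  simpa using h2

theorem bd_const {m : ℕ} (s : (SSet.boundary.{u} 1 : SSet.{u}) _⦋m⦌) (j : Fin (m + 1)) :
    (s.1 : Δ[1] _⦋m⦌) j = (s.1 : Δ[1] _⦋m⦌) 0 := by
  obtain ⟨s, hs⟩ := s
  obtain ⟨k, hk⟩ := (SSet.mem_boundary_iff_notMem_range s).1 hs
  have h1 : s j ≠ k := fun h => hk ⟨j, h⟩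
  have h2 : s 0 ≠ k := fun h => hk ⟨0, h⟩
  change s j = s 0
  omega

/-- The map `X ⊗ ∂Δ[1] ⟶ K` given by two maps `X ⟶ K`. -/
noncomputable def dsc {X K : SSet.{u}} (b0 b1 : X ⟶ K) : X ⊗ (SSet.boundary.{u} 1 : SSet.{u}) ⟶ K where
  app m := TypeCat.ofHom (fun z => if SSet.stdSimplex.asOrderHom z.2.1 0 = 0 then b0.app m z.1 else b1.app m z.1)
  naturality m n θ := by
    ext z
    induction m using Opposite.rec with | _ m
    induction n using Opposite.rec with | _ n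
    induction m using SimplexCategory.rec with | _ m
    induction n using SimplexCategory.rec with | _ n
    have h1 : SSet.stdSimplex.asOrderHom ((X ⊗ (SSet.boundary.{u} 1 : SSet.{u})).map θ z).2.1 0 =
      SSet.stdSimplex.asOrderHom z.2.1 0 := bd_const z.2 (θ.unop.toOrderHom 0)
    have h2 : b0.app (op (SimplexCategory.mk n)) (((X ⊗ (SSet.boundary.{u} 1 : SSet.{u})).map θ z).1) =
        K.map θ (b0.app (op (SimplexCategory.mk m)) z.1) := by
      have := congrArg (fun k => k z.1) (b0.naturality θ)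
      exact this
    have h3 : b1.app (op (SimplexCategory.mk n)) (((X ⊗ (SSet.boundary.{u} 1 : SSet.{u})).map θ z).1) =
        K.map θ (b1.app (op (SimplexCategory.mk m)) z.1) := by
      have := congrArg (fun k => k z.1) (b1.naturality θ)
      exact this
    change (if SSet.stdSimplex.asOrderHom ((X ⊗ (SSet.boundary.{u} 1 : SSet.{u})).map θ z).2.1 0 = 0 then
      b0.app _ (((X ⊗ (SSet.boundary.{u} 1 : SSet.{u})).map θ z).1) else
      b1.app _ (((X ⊗ (SSet.boundary.{u} 1 : SSet.{u})).map θ z).1)) =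
      K.map θ (if SSet.stdSimplex.asOrderHom z.2.1 0 = 0 then b0.app _ z.1 else b1.app _ z.1)
    rw [h1]
    split_ifs
    · exact h2
    · exact h3

theorem dsc_app {X K : SSet.{u}} (b0 b1 : X ⟶ K) (m : SimplexCategoryᵒᵖ)
    (z : (X ⊗ (SSet.boundary.{u} 1 : SSet.{u})).obj m) :
    (dsc b0 b1).app m z = if SSet.stdSimplex.asOrderHom z.2.1 0 = 0 then b0.app m z.1 else b1.app m z.1 :=
  rfl

/-- Sections of `fst : X ⊗ ∂Δ[1] ⟶ X`. -/
theorem bd_mem (i : Fin 2) : SSet.stdSimplex.obj₀Equiv.{u}.symm i ∈ (SSet.boundary.{u} 1).obj _ := by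
  rw [SSet.mem_boundary_iff_notMem_range]
  refine ⟨1 - i, ?_⟩
  rintro ⟨j, hj⟩
  have : i = 1 - i := hj
  omega

noncomputable def bsec (i : Fin 2) (X : SSet.{u}) : X ⟶ X ⊗ (SSet.boundary.{u} 1 : SSet.{u}) :=
  CartesianMonoidalCategory.lift (𝟙 X) (SSet.const ⟨SSet.stdSimplex.obj₀Equiv.{u}.symm i, bd_mem i⟩)

theorem bsec0_dsc {X K : SSet.{u}} (b0 b1 : X ⟶ K) : bsec 0 X ≫ dsc b0 b1 = b0 := by
  ext m x
  change (dsc b0 b1).app m ((bsec 0 X).app m x) = _
  rw [dsc_app, if_pos]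
  · rfl
  · rfl

theorem bsec1_dsc {X K : SSet.{u}} (b0 b1 : X ⟶ K) : bsec 1 X ≫ dsc b0 b1 = b1 := by
  ext m x
  change (dsc b0 b1).app m ((bsec 1 X).app m x) = _
  rw [dsc_app, if_neg]
  · rfl
  · exact one_ne_zero

theorem bsec_ι0 (X : SSet.{u}) : bsec 0 X ≫ X ◁ (SSet.boundary.{u} 1).ι = SSet.ι₀ := rfl

theorem bsec_ι1 (X : SSet.{u}) : bsec 1 X ≫ X ◁ (SSet.boundary.{u} 1).ι = SSet.ι₁ := rfl

/-- Two maps on `X ⊗ ∂Δ[1]` agree if they agree at the two ends. -/
theorem bd_ext {X K : SSet.{u}} (f g : X ⊗ (SSet.boundary.{u} 1 : SSet.{u}) ⟶ K)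
    (h0 : bsec 0 X ≫ f = bsec 0 X ≫ g) (h1 : bsec 1 X ≫ f = bsec 1 X ≫ g) : f = g := by
  ext m z
  induction m using Opposite.rec with | _ m
  induction m using SimplexCategory.rec with | _ m
  obtain ⟨x, s⟩ := z
  have key : ∀ i : Fin 2, (s.1 : Δ[1] _⦋m⦌) 0 = i → ((x, s) : (X ⊗ (SSet.boundary.{u} 1 : SSet.{u})) _⦋m⦌) =
      (bsec i X).app _ x := by
    intro i hi
    refine Prod.ext rfl (Subtype.ext ?_)
    apply SSet.stdSimplex.ext
    intro j
    rw [bd_const s j, hi]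
    rfl
  have h3 : ∀ k : Fin 2, k = 0 ∨ k = 1 := by decide
  have h2 : (s.1 : Δ[1] _⦋m⦌) 0 = 0 ∨ (s.1 : Δ[1] _⦋m⦌) 0 = 1 := h3 _
  rcases h2 with h2 | h2
  · rw [key 0 h2]
    exact congrArg (fun k => k.app _ x) h0
  · rw [key 1 h2]
    exact congrArg (fun k => k.app _ x) h1

theorem he : S_HE.{u} := by
  intro A B K L i q b0 b1 h g hi hq e0 e1 e2 e3 e4
  obtain ⟨hq1, hq2⟩ := hq
  have := hq1
  have := hq2
  have : SSet.KanComplex K := isFibrant_of_fibration q
  have hLLP : ∀ sq : (curriedTensor SSet.{u}).PushoutObjObj i (SSet.boundary.{u} 1).ι,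
      HasLiftingProperty sq.ι q := by
    intro sq
    rw [HasLiftingProperty.iff_of_arrow_iso_left
      (show Arrow.mk sq.ι ≅ Arrow.mk sq.flipTensor.ι from
        Arrow.isoMk (Iso.refl _) (β_ _ _))]
    let sq' := Functor.PullbackObjObj.ofHasPullback MonoidalClosed.internalHom
      (SSet.boundary.{u} 1).ι q
    rw [internalHomAdjunction₂.hasLiftingProperty_iff _ sq']
    have hf : Fibration sq'.π := SSet.fibration_pullbackObjObjπ sq'
    have hk : SSet.KanComplex sq'.pt := by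
      have h1 := sq'.isPullback
      have h2 : Fibration (((MonoidalClosed.internalHom (C := SSet.{u})).map
          (SSet.boundary.{u} 1).ι.op).app L) :=
        inferInstanceAs (Fibration ((MonoidalClosed.pre (SSet.boundary.{u} 1).ι).app L))
      have h3 : Fibration sq'.fst := by
        rw [fibration_iff] at h2 ⊢
        exact MorphismProperty.of_isPullback h1.flip h2
      have h4 : SSet.KanComplex ((ihom (SSet.boundary.{u} 1 : SSet.{u})).obj K) := inferInstance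
      have h5 : SSet.KanComplex ((MonoidalClosed.internalHom.obj
        (op (SSet.boundary.{u} 1 : SSet.{u}))).obj K) := h4
      exact isFibrant_of_fibration sq'.fst
    exact hi _ ⟨hf, hk⟩
  obtain ⟨H, H1, H2, H3⟩ := pp_lift (Functor.PushoutObjObj.ofHasPushout (curriedTensor SSet.{u}) i
    (SSet.boundary.{u} 1).ι) (hLLP _) (dsc b0 b1) h g
    (by
      apply bd_ext
      · rw [← Category.assoc, ← Category.assoc]
        change i ≫ bsec 0 B ≫ dsc b0 b1 = (bsec 0 A ≫ A ◁ (SSet.boundary.{u} 1).ι) ≫ h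
        rw [bsec0_dsc, bsec_ι0, e0]
      · rw [← Category.assoc, ← Category.assoc]
        change i ≫ bsec 1 B ≫ dsc b0 b1 = (bsec 1 A ≫ A ◁ (SSet.boundary.{u} 1).ι) ≫ h
        rw [bsec1_dsc, bsec_ι1, e1])
    (by
      apply bd_ext
      · rw [← Category.assoc, ← Category.assoc, bsec0_dsc, bsec_ι0, e2]
      · rw [← Category.assoc, ← Category.assoc, bsec1_dsc, bsec_ι1, e3]) e4.symm
  refine ⟨H, ?_, ?_, H2, H3⟩
  · rw [← bsec_ι0, Category.assoc, H1, bsec0_dsc]
  · rw [← bsec_ι1, Category.assoc, H1, bsec1_dsc]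

end Pool.Agent.Q213.PM
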