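import Pool.Agent.Q213.PM.T23

set_option autoImplicit false

/-! Project PM, job HEW. -/

universe u

open CategoryTheory Limits Opposite Simplicial HomotopicalAlgebra MonoidalCategory
open SSet.modelCategoryQuillen CartesianMonoidalCategory

namespace Pool.Agent.Q213.PM

theorem Hpc.post {X K L : SSet.{u}} {a b : X ⟶ K} (h : Hpc a b) (c : K ⟶ L) :
    Hpc (a ≫ c) (b ≫ c) := by
  obtain ⟨H, h0, h1⟩ := h
  exact ⟨H ≫ c, by rw [← h0, Category.assoc], by rw [← h1, Category.assoc]⟩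

theorem eg_post {X K L : SSet.{u}} {a b : X ⟶ K} (h : Relation.EqvGen Hpc a b) (c : K ⟶ L) :
    Relation.EqvGen Hpc (a ≫ c) (b ≫ c) := by
  induction h with
  | rel x y h => exact .rel _ _ (h.post c)
  | refl x => exact .refl _
  | symm x y _ ih => exact .symm _ _ ih
  | trans x y z _ _ ih1 ih2 => exact .trans _ _ _ ih1 ih2

theorem eg_pre {X Y K : SSet.{u}} (f : X ⟶ Y) {a b : Y ⟶ K} (h : Relation.EqvGen Hpc a b) :
    Relation.EqvGen Hpc (f ≫ a) (f ≫ b) := by
  induction h with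
  | rel x y h => exact .rel _ _ (h.pre f)
  | refl x => exact .refl _
  | symm x y _ ih => exact .symm _ _ ih
  | trans x y z _ _ ih1 ih2 => exact .trans _ _ _ ih1 ih2

theorem hew : S_HEW.{u} := by
  intro X Y f g h1 h2 K _
  have e1 : ∀ c : HC X K, HC.pre f K (HC.pre g K c) = c := by
    intro c
    induction c using Quot.ind with | _ c
    have h3 := eg_post h1 c
    rw [Category.assoc, Category.id_comp] at h3
    exact Quot.eqvGen_sound h3
  have e2 : ∀ c : HC Y K, HC.pre g K (HC.pre f K c) = c := by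
    intro c
    induction c using Quot.ind with | _ c
    have h3 := eg_post h2 c
    rw [Category.assoc, Category.id_comp] at h3
    exact Quot.eqvGen_sound h3
  exact ⟨fun a b hab => by rw [← e2 a, ← e2 b, hab], fun c => ⟨_, e1 c⟩⟩

theorem wc : S_WC.{u} := by
  intro X Y Z f g hf hg K hK
  have h : HC.pre (f ≫ g) K = HC.pre f K ∘ HC.pre g K := by
    funext c
    induction c using Quot.ind with | _ c
    exact congrArg (Quot.mk _) (Category.assoc f g c)
  rw [h]
  exact (hf K hK).comp (hg K hK)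

/-- A map with `TF` has a section which is a homotopy inverse. -/
theorem tf_sec (hTFE : S_TFE.{u}) {X Y : SSet.{u}} (q : X ⟶ Y) (hq : TF q) :
    ∃ s : Y ⟶ X, s ≫ q = 𝟙 Y ∧ Hpc (q ≫ s) (𝟙 X) := by
  have hlp : HasLiftingProperty (initial.to Y) q := hq _ (mono_bot Y)
  have sq : CommSq (initial.to X) (initial.to Y) q (𝟙 Y) := ⟨initialIsInitial.hom_ext _ _⟩
  obtain ⟨H, h0, h1, -⟩ := hTFE q (sq.lift ≫ 𝟙 X) (sq.lift ≫ 𝟙 X) (fst _ _) hq
    (by rw [SSet.ι₀_fst, Category.comp_id, sq.fac_right])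
    (by rw [SSet.ι₁_fst, Category.comp_id, sq.fac_right])
  obtain ⟨H', h0', h1', -⟩ := hTFE q (q ≫ sq.lift) (𝟙 X) (fst _ _ ≫ q) hq
    (by rw [← Category.assoc, SSet.ι₀_fst, Category.id_comp, Category.assoc, sq.fac_right,
      Category.comp_id])
    (by rw [← Category.assoc, SSet.ι₁_fst])
  exact ⟨sq.lift, sq.fac_right, H', h0', h1'⟩

theorem tfw (hTFE : S_TFE.{u}) : S_TFW.{u} := by
  intro X Y q hq
  obtain ⟨s, hs, h⟩ := tf_sec hTFE q hq
  exact hew q s (.rel _ _ h) (by rw [hs]; exact .refl _)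

end Pool.Agent.Q213.PM
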