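import Pool.Agent.Q213.PM.HEW

set_option autoImplicit false

/-! Project PM, job STD. -/

universe u

open CategoryTheory Limits Opposite Simplicial HomotopicalAlgebra MonoidalCategory
open SSet.modelCategoryQuillen CartesianMonoidalCategory

namespace Pool.Agent.Q213.PM

theorem tfc (hRET : S_RET.{u}) (hTFE : S_TFE.{u}) : S_TFC.{u} := by
  intro X Y q hq hY
  obtain ⟨s, hs, h⟩ := tf_sec hTFE q hq
  exact hRET s q (.rel _ _ h) hY

theorem contr_pt : Contr (Δ[0] : SSet.{u}) := by
  refine ⟨𝟙 _, ?_⟩
  intro K L q _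
  infer_instance

/-- The contraction of `Δ[n]` to its vertex `0`. -/
noncomputable def ctr (n : ℕ) : (Δ[n] : SSet.{u}) ⊗ Δ[1] ⟶ Δ[n] where
  app m := TypeCat.ofHom (fun z => SSet.stdSimplex.objMk
    ⟨fun j => if SSet.stdSimplex.asOrderHom z.2 j = 0 then 0 else SSet.stdSimplex.asOrderHom z.1 j, by
      intro j k hjk
      have h2 := (SSet.stdSimplex.asOrderHom z.2).monotone hjk
      have h1 := (SSet.stdSimplex.asOrderHom z.1).monotone hjk
      dsimp only
      by_cases hk : SSet.stdSimplex.asOrderHom z.2 k = 0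
      · rw [if_pos hk]
        have : SSet.stdSimplex.asOrderHom z.2 j = 0 := by
          rw [hk] at h2
          exact le_antisymm h2 (Fin.zero_le _)
        rw [if_pos this]
      · rw [if_neg hk]
        split_ifs
        · exact Fin.zero_le _
        · exact h1⟩)
  naturality m m' θ := by
    ext z
    rfl

theorem std (hRET : S_RET.{u}) : S_STD.{u} := by
  intro n
  refine hRET (SSet.const (SSet.stdSimplex.obj₀Equiv.{u}.symm (0 : Fin (n + 1)))) (tm _) (.rel _ _ ?_) contr_pt
  refine ⟨ctr n, ?_, ?_⟩
  · ext m x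
    rfl
  · ext m x
    induction m using Opposite.rec with | _ m
    induction m using SimplexCategory.rec with | _ m
    apply SSet.stdSimplex.ext
    intro j
    change (if (1 : Fin 2) = 0 then (0 : Fin (n + 1)) else x j) = x j
    rw [if_neg one_ne_zero]

end Pool.Agent.Q213.PM
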