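import Pool.Agent.Q213.PM.Stm

set_option autoImplicit false

/-! Project PM, jobs T23, V, MC, ACW. -/

universe u

open CategoryTheory Limits Opposite Simplicial HomotopicalAlgebra MonoidalCategory
open SSet.modelCategoryQuillen CartesianMonoidalCategory

namespace Pool.Agent.Q213.PM

theorem t23 (hHE : S_HE.{u}) (hH0 : S_H0.{u}) : S_23.{u} := by
  intro A B C i j hj hi hij K L q hq
  refine ⟨fun {b c} hsq => ?_⟩
  have e0 : b ≫ q = j ≫ c := hsq.w
  have hlp : HasLiftingProperty (i ≫ j) q := hij q hq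
  have sq1 : CommSq (i ≫ b) (i ≫ j) q c := ⟨by rw [Category.assoc, e0, Category.assoc]⟩
  let e : C ⟶ K := sq1.lift
  have e1 : (i ≫ j) ≫ e = i ≫ b := sq1.fac_left
  have e2 : e ≫ q = c := sq1.fac_right
  obtain ⟨H, H1, H2, H3, H4⟩ := hHE i q (j ≫ e) b (fst A _ ≫ i ≫ b) (fst B _ ≫ j ≫ c) hi hq
    (by rw [← Category.assoc, SSet.ι₀_fst, Category.id_comp, ← e1, Category.assoc])
    (by rw [← Category.assoc, SSet.ι₁_fst, Category.id_comp])
    (by rw [← Category.assoc, SSet.ι₀_fst, Category.id_comp, Category.assoc, e2])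
    (by rw [← Category.assoc, SSet.ι₁_fst, Category.id_comp, e0])
    (by simp [e0])
  obtain ⟨H', K1, K2, K3⟩ := hH0 j q e H (fst C _ ≫ c) hj hq.1 H1
    (by rw [← Category.assoc, SSet.ι₀_fst, Category.id_comp, e2])
    (by rw [H4]; simp)
  refine ⟨⟨SSet.ι₁ ≫ H', ?_, ?_⟩⟩
  · rw [← Category.assoc, ← SSet.ι₁_comp, Category.assoc, K2, H2]
  · rw [Category.assoc, K3, ← Category.assoc, SSet.ι₁_fst, Category.id_comp]

theorem kf_term (L : SSet.{u}) (h : SSet.KanComplex L) : KF (terminal.from L) := ⟨h, by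
  have : SSet.KanComplex (⊤_ SSet.{u}) := by
    have : IsIso (terminal.from (⊤_ SSet.{u})) := isIso_of_isTerminal terminalIsTerminal terminalIsTerminal _
    infer_instance
  exact this⟩

/-- The map to the point. -/
noncomputable def tm (X : SSet.{u}) : X ⟶ Δ[0] := SSet.stdSimplex.isTerminalObj₀.from X

theorem tm_ext {X : SSet.{u}} (f g : X ⟶ Δ[0]) : f = g := SSet.stdSimplex.isTerminalObj₀.hom_ext _ _

instance mono_pt {X : SSet.{u}} (x : Δ[0] ⟶ X) : Mono x := ⟨fun _ _ _ => tm_ext _ _⟩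

/-- The empty simplicial set maps monomorphically. -/
theorem mono_bot (X : SSet.{u}) : Mono (initial.to X) := inferInstance

/-- Lifting a path which ends (starts) at a given point. -/
theorem path_lift1 (hH1 : S_H1.{u}) {K L : SSet.{u}} (q : K ⟶ L) (hq : Fibration q) (k : Δ[0] ⟶ K)
    (γ : (Δ[0] : SSet.{u}) ⊗ Δ[1] ⟶ L) (h : SSet.ι₁ ≫ γ = k ≫ q) :
    ∃ γ' : (Δ[0] : SSet.{u}) ⊗ Δ[1] ⟶ K, SSet.ι₁ ≫ γ' = k ∧ γ' ≫ q = γ := by
  have hin : IsInitial ((⊥_ SSet.{u}) ⊗ (Δ[1] : SSet.{u})) :=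
    IsInitial.isInitialObj (tensorRight (Δ[1] : SSet.{u})) _ initialIsInitial
  obtain ⟨H, h1, h2, h3⟩ := hH1 (initial.to (Δ[0] : SSet.{u})) q k (hin.to K) γ (mono_bot _) hq
    (initialIsInitial.hom_ext _ _) h (hin.hom_ext _ _)
  exact ⟨H, h1, h3⟩

theorem path_lift0 (hH0 : S_H0.{u}) {K L : SSet.{u}} (q : K ⟶ L) (hq : Fibration q) (k : Δ[0] ⟶ K)
    (γ : (Δ[0] : SSet.{u}) ⊗ Δ[1] ⟶ L) (h : SSet.ι₀ ≫ γ = k ≫ q) :
    ∃ γ' : (Δ[0] : SSet.{u}) ⊗ Δ[1] ⟶ K, SSet.ι₀ ≫ γ' = k ∧ γ' ≫ q = γ := by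
  have hin : IsInitial ((⊥_ SSet.{u}) ⊗ (Δ[1] : SSet.{u})) :=
    IsInitial.isInitialObj (tensorRight (Δ[1] : SSet.{u})) _ initialIsInitial
  obtain ⟨H, h1, h2, h3⟩ := hH0 (initial.to (Δ[0] : SSet.{u})) q k (hin.to K) γ (mono_bot _) hq
    (initialIsInitial.hom_ext _ _) h (hin.hom_ext _ _)
  exact ⟨H, h1, h3⟩

theorem vv (hHE : S_HE.{u}) (hH0 : S_H0.{u}) (hH1 : S_H1.{u}) : S_V.{u} := by
  rintro X ⟨x0, hx0⟩ x K L q hq
  refine ⟨fun {k l} hsq => ?_⟩
  have e0 : k ≫ q = x ≫ l := hsq.w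
  obtain ⟨G, G1, G2, G3, G4⟩ := hHE x0 (terminal.from L) (tm X ≫ x0 ≫ l) l (fst _ _ ≫ x0 ≫ l)
    (terminal.from _) hx0 (kf_term L hq.2)
    (by rw [← Category.assoc, SSet.ι₀_fst, Category.id_comp, ← Category.assoc x0,
      tm_ext (x0 ≫ tm X) (𝟙 _), Category.id_comp])
    (by rw [← Category.assoc, SSet.ι₁_fst, Category.id_comp])
    (terminalIsTerminal.hom_ext _ _) (terminalIsTerminal.hom_ext _ _)
    (terminalIsTerminal.hom_ext _ _)
  obtain ⟨γ', g1, g2⟩ := path_lift1 hH1 q hq.1 k (x ▷ Δ[1] ≫ G)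
    (by rw [← Category.assoc, SSet.ι₁_comp, Category.assoc, G2, e0])
  obtain ⟨H, K1, K2, K3⟩ := hH0 x q (tm X ≫ SSet.ι₀ ≫ γ') γ' G inferInstance hq.1
    (by rw [← Category.assoc x, tm_ext (x ≫ tm X) (𝟙 _), Category.id_comp])
    (by
      rw [G1, Category.assoc, Category.assoc, g2, ← Category.assoc SSet.ι₀ (x ▷ _), SSet.ι₀_comp,
        Category.assoc, G1, ← Category.assoc x, tm_ext (x ≫ tm X) (𝟙 _), Category.id_comp])
    g2.symm
  refine ⟨⟨SSet.ι₁ ≫ H, ?_, ?_⟩⟩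
  · rw [← Category.assoc, ← SSet.ι₁_comp, Category.assoc, K2, g1]
  · rw [Category.assoc, K3, G2]

theorem mc (h23 : S_23.{u}) (hV : S_V.{u}) : S_MC.{u} := by
  rintro A B i hi ⟨x, hx⟩ hB
  exact h23 x i hi hx (hV hB _)

theorem acw (hHE : S_HE.{u}) : S_ACW.{u} := by
  intro A B i hi K hK
  have hext : ∀ a : A ⟶ K, ∃ b : B ⟶ K, i ≫ b = a := by
    intro a
    have hlp : HasLiftingProperty i (terminal.from K) := hi _ (kf_term K hK)
    have sq : CommSq a i (terminal.from K) (terminal.from B) := ⟨terminalIsTerminal.hom_ext _ _⟩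
    exact ⟨sq.lift, sq.fac_left⟩
  have hstep : ∀ (x y : A ⟶ K) (b c : B ⟶ K), i ≫ b = x → i ≫ c = y → Hpc x y → Hpc b c := by
    rintro x y b c hb hc ⟨h, h0, h1⟩
    obtain ⟨H, H0, H1, -, -⟩ := hHE i (terminal.from K) b c h (terminal.from _) hi (kf_term K hK)
      (by rw [h0, hb]) (by rw [h1, hc]) (terminalIsTerminal.hom_ext _ _)
      (terminalIsTerminal.hom_ext _ _) (terminalIsTerminal.hom_ext _ _)
    exact ⟨H, H0, H1⟩
  have hrefl : ∀ x : A ⟶ K, Hpc x x := fun x =>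
    ⟨fst _ _ ≫ x, by rw [← Category.assoc, SSet.ι₀_fst, Category.id_comp],
      by rw [← Category.assoc, SSet.ι₁_fst, Category.id_comp]⟩
  have key : ∀ x y : A ⟶ K, Relation.EqvGen Hpc x y → ∀ b c : B ⟶ K, i ≫ b = x → i ≫ c = y →
      Relation.EqvGen Hpc b c := by
    intro x y h
    induction h with
    | rel x y h => exact fun b c hb hc => .rel _ _ (hstep x y b c hb hc h)
    | refl x => exact fun b c hb hc => .rel _ _ (hstep x x b c hb hc (hrefl x))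
    | symm x y _ ih => exact fun b c hb hc => .symm _ _ (ih c b hc hb)
    | trans x y z _ _ ih1 ih2 =>
      intro b c hb hc
      obtain ⟨d, hd⟩ := hext y
      exact .trans _ _ _ (ih1 b d hb hd) (ih2 d c hd hc)
  constructor
  · intro a b hab
    induction a using Quot.ind with | _ a
    induction b using Quot.ind with | _ b
    exact Quot.eqvGen_sound (key _ _ (Quot.eqvGen_exact hab) a b rfl rfl)
  · intro a
    induction a using Quot.ind with | _ a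
    obtain ⟨b, hb⟩ := hext a
    exact ⟨Quot.mk _ b, congrArg (Quot.mk _) hb⟩

end Pool.Agent.Q213.PM
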