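import Pool.Agent.Q213.PM.Fin
import Pool.Agent.Q213.PM.STD
import Pool.Agent.Q213.PM.HEW
import Pool.Agent.Q213.PM.T23
import Pool.Agent.Q213.PM.HE
import Pool.Agent.Q121.PM.CYL
import Pool.Agent.Q121.PM.SM
import Pool.Agent.Q121.PM.LGA
import Pool.Agent.Q121.PM.LG
import Pool.Agent.Q121.PM.TA
import Pool.Agent.Q25.PM.ZR
import Pool.Agent.Q25.PM.SH
import Pool.Agent.Q25.PM.AX
import Pool.Agent.Q153.PM.CELL
import Pool.Agent.Q153.PM.TOT
import Pool.Agent.Q154.PM.TFE
import Pool.Agent.Q154.PM.NAT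
import Pool.Agent.Q166.PM.SEQ
import Pool.Agent.Q166.PM.RET
import Pool.Agent.Q166.PM.GL
import Pool.Agent.Q182.PM.PMS

set_option autoImplicit false

/-! Project PM: the main theorem, assembled from the proved statements. -/

universe u

open CategoryTheory

namespace Pool.Agent.Q213.PM

/-- Every small category `D` has a functor, with nerve a weak homotopy equivalence, to the category
of weak equivalences of a partial model category. -/
theorem main (D : Type u) [SmallCategory D] :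
    ∃ (M : Type u) (_ : SmallCategory M) (S : PartialModel M) (G : D ⥤ WideSubcategory S.W),
      WeakEq (nerveMap G) ∧ S.W = ⊤ := by
  have hV : S_V.{u} := vv he h0 h1
  have h23 : S_23.{u} := t23 he h0
  have hRET : S_RET.{u} := Pool.Agent.Q166.PM.ret hV h0 h1
  have hTFC : S_TFC.{u} := tfc hRET Pool.Agent.Q154.PM.tfe
  have hSTD : S_STD.{u} := std hRET
  have hMC : S_MC.{u} := mc h23 hV
  have hACW : S_ACW.{u} := acw he
  have hTFW : S_TFW.{u} := tfw Pool.Agent.Q154.PM.tfe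
  have hZR : S_ZR.{u} := Pool.Agent.Q25.PM.zr Pool.Agent.Q154.PM.nat hRET hew hSTD
  have hZW : S_ZW.{u} := Pool.Agent.Q25.PM.zw Pool.Agent.Q154.PM.nat hRET hew hSTD
  have hREP : S_REP.{u} := Pool.Agent.Q25.PM.rep Pool.Agent.Q154.PM.nat hRET hew hSTD
  have hLGA : S_LGA.{u} := Pool.Agent.Q121.PM.lga Pool.Agent.Q153.PM.cell Pool.Agent.Q166.PM.seq h23
  have hLG : S_LG.{u} := Pool.Agent.Q121.PM.lg hLGA hMC hTFC hSTD hACW hTFW wc
  have hTOT : S_TOT.{u} := Pool.Agent.Q153.PM.tot hZR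
  have hTA : S_TA.{u} := Pool.Agent.Q121.PM.ta hTOT hLG hZW wc
  exact main_of Pool.Agent.Q25.PM.ax hZW hZR Pool.Agent.Q121.PM.cyl_thm
    (Pool.Agent.Q25.PM.sh hZR) (Pool.Agent.Q25.PM.shp hZR) (Pool.Agent.Q166.PM.gl hMC) hREP
    Pool.Agent.Q121.PM.sm Pool.Agent.Q182.PM.t_PMS hTA wc D

end Pool.Agent.Q213.PM
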