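import Pool.Agent.Q213.PM.Def

set_option autoImplicit false

/-!
Project PM (helper213), statements.  Row MP_64c6ca_gt: every homotopy type is the homotopy type of
the category of weak equivalences of a partial model category.

Plan.  For a small category `D` take `A = D × (finite powers of Bool)` and the presheaves `P` on `A` with
contractible category of elements.  The maps `f` all of whose pushouts (pullbacks) along maps to (from)
aspherical presheaves are aspherical, and mapping cylinders, make a small full subcategory `M` of the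
aspherical presheaves (which contains the representable ones) a partial model category with all maps as
weak equivalences, and `A ⥤ M` is a weak equivalence by Quillen's theorem A.
-/

universe v u w

open CategoryTheory Limits Opposite Simplicial HomotopicalAlgebra MonoidalCategory
open SSet.modelCategoryQuillen

namespace Pool.Agent.Q213.PM

/-! ### Part 1: simplicial sets -/

/-- JOB HE.  Homotopy extension with two prescribed ends, for maps in `Ac`.
Proof.  Let `j : ∂Δ[1] ⟶ Δ[1]` (or `Δ[0] ⨿ Δ[0] ⟶ Δ[1]`), a monomorphism.  For `q : K ⟶ L` in `KF` the map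
`π : K^{Δ[1]} ⟶ K^{∂Δ[1]} ×_{L^{∂Δ[1]}} L^{Δ[1]}` is a Kan fibration (`SSet.fibration_pullbackObjObjπ`) and its
target is a Kan complex (its projection to the Kan complex `K^{∂Δ[1]}` is a base change of the Kan fibration
`L^{Δ[1]} ⟶ L^{∂Δ[1]}`).  So `i` has the left lifting property with respect to `π`, and by adjunction
(`internalHomAdjunction₂.hasLiftingProperty_iff`, as in `Mathlib/AlgebraicTopology/SimplicialSet/AnodyneExtensions/PushoutProduct.lean`)
the pushout product of `i` and `j` has it with respect to `q`.  The maps `b0`, `b1`, `h` define a map from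
its source `A ⊗ Δ[1] ∪ B ⊗ ∂Δ[1]` to `K`. -/
def S_HE : Prop := ∀ {A B K L : SSet.{u}} (i : A ⟶ B) (q : K ⟶ L) (b0 b1 : B ⟶ K)
  (h : A ⊗ Δ[1] ⟶ K) (g : B ⊗ Δ[1] ⟶ L), Ac i → KF q →
  SSet.ι₀ ≫ h = i ≫ b0 → SSet.ι₁ ≫ h = i ≫ b1 → SSet.ι₀ ≫ g = b0 ≫ q → SSet.ι₁ ≫ g = b1 ≫ q →
  i ▷ Δ[1] ≫ g = h ≫ q →
  ∃ H : B ⊗ Δ[1] ⟶ K, SSet.ι₀ ≫ H = b0 ∧ SSet.ι₁ ≫ H = b1 ∧ i ▷ Δ[1] ≫ H = h ∧ H ≫ q = g

/-- JOB TFE.  The same for `i = ∅ ⟶ X` and a map `q` with the right lifting property with respect to all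
monomorphisms.  Proof.  `X ⊗ ∂Δ[1] ⟶ X ⊗ Δ[1]` is a monomorphism (or `X ⨿ X ⟶ X ⊗ Δ[1]` given by `ι₀`, `ι₁`). -/
def S_TFE : Prop := ∀ {X K L : SSet.{u}} (q : K ⟶ L) (b0 b1 : X ⟶ K) (g : X ⊗ Δ[1] ⟶ L), TF q →
  SSet.ι₀ ≫ g = b0 ≫ q → SSet.ι₁ ≫ g = b1 ≫ q →
  ∃ H : X ⊗ Δ[1] ⟶ K, SSet.ι₀ ≫ H = b0 ∧ SSet.ι₁ ≫ H = b1 ∧ H ≫ q = g

/-- JOB H0.  Homotopy extension with one prescribed end (the end `ι₀`), for monomorphisms and Kan
fibrations.  Proof.  The pushout product of a monomorphism with the anodyne extension `Δ[0] ⟶ Δ[1]` is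
anodyne (`SSet.anodyneExtensions_pushoutObjObjι`, `SSet.anodyneExtensions_unionProd_ι`). -/
def S_H0 : Prop := ∀ {A B K L : SSet.{u}} (i : A ⟶ B) (q : K ⟶ L) (b : B ⟶ K)
  (h : A ⊗ Δ[1] ⟶ K) (g : B ⊗ Δ[1] ⟶ L), Mono i → Fibration q →
  SSet.ι₀ ≫ h = i ≫ b → SSet.ι₀ ≫ g = b ≫ q → i ▷ Δ[1] ≫ g = h ≫ q →
  ∃ H : B ⊗ Δ[1] ⟶ K, SSet.ι₀ ≫ H = b ∧ i ▷ Δ[1] ≫ H = h ∧ H ≫ q = g

/-- JOB H0 (same job).  The same with the end `ι₁`. -/
def S_H1 : Prop := ∀ {A B K L : SSet.{u}} (i : A ⟶ B) (q : K ⟶ L) (b : B ⟶ K)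
  (h : A ⊗ Δ[1] ⟶ K) (g : B ⊗ Δ[1] ⟶ L), Mono i → Fibration q →
  SSet.ι₁ ≫ h = i ≫ b → SSet.ι₁ ≫ g = b ≫ q → i ▷ Δ[1] ≫ g = h ≫ q →
  ∃ H : B ⊗ Δ[1] ⟶ K, SSet.ι₁ ≫ H = b ∧ i ▷ Δ[1] ≫ H = h ∧ H ≫ q = g

/-- JOB T23 (uses `S_HE`, `S_H0`).
Proof.  Let `q : K ⟶ L` be in `KF`, `b : B ⟶ K`, `c : C ⟶ L`, `b ≫ q = j ≫ c`.  As `i ≫ j` is in `Ac` there is
`e : C ⟶ K` with `i ≫ j ≫ e = i ≫ b` and `e ≫ q = c`.  By `S_HE` for `i`, `b0 = j ≫ e`, `b1 = b`, with the constant
homotopies `h = fst ≫ i ≫ b`, `g = fst ≫ j ≫ c`, there is `H : B ⊗ Δ[1] ⟶ K` from `j ≫ e` to `b` with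
`H ≫ q = fst ≫ j ≫ c`.  By `S_H0` for `j`, `b = e`, `h = H`, `g = fst ≫ c` there is `H' : C ⊗ Δ[1] ⟶ K` with
`ι₀ ≫ H' = e`, `j ▷ Δ[1] ≫ H' = H`, `H' ≫ q = fst ≫ c`.  Then `ι₁ ≫ H'` is the wanted lift. -/
def S_23 : Prop := ∀ {A B C : SSet.{u}} (i : A ⟶ B) (j : B ⟶ C), Mono j → Ac i → Ac (i ≫ j) → Ac j

/-- JOB V (uses `S_HE`, `S_H0`, `S_H1`).  All vertices of a contractible simplicial set are in `Ac`.
Proof.  Let `x₀ : Δ[0] ⟶ X` be in `Ac`, `x : Δ[0] ⟶ X` arbitrary, `q : K ⟶ L` in `KF`, `k : Δ[0] ⟶ K`, `l : X ⟶ L`,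
`k ≫ q = x ≫ l`.  (1) By `S_HE` for `x₀` and `L ⟶ ⊤` there is a homotopy `G : X ⊗ Δ[1] ⟶ L` from the constant map
with value `x₀ ≫ l` to `l` (the two maps agree on `x₀`).  (2) The path `γ = x ▷ Δ[1] ≫ G : Δ[0] ⊗ Δ[1] ⟶ L` ends at
`x ≫ l = k ≫ q`; by `S_H1` for `∅ ⟶ Δ[0]` it lifts to a path `γ'` in `K` which ends at `k`; let `k₀` be its start,
`k₀ ≫ q = x₀ ≫ l`.  (3) By `S_H0` for the monomorphism `x`, `b` = the constant map `X ⟶ K` with value `k₀`,
`h = γ'`, `g = G` there is `H : X ⊗ Δ[1] ⟶ K` with `H ≫ q = G`, `x ▷ Δ[1] ≫ H = γ'`.  Then `ι₁ ≫ H` is the wanted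
lift of `l`. -/
def S_V : Prop := ∀ {X : SSet.{u}}, Contr X → ∀ x : Δ[0] ⟶ X, Ac x

/-- JOB RET (uses `S_V`, `S_H0`, `S_H1`).  Homotopy retracts of contractible simplicial sets are
contractible.
Proof.  For `e : Y ⟶ Z` let `Lft e` be the property: for all `q : K ⟶ L` in `KF`, `l : Z ⟶ L`, `y : Δ[0] ⟶ Y`,
`k : Δ[0] ⟶ K` with `k ≫ q = y ≫ e ≫ l` there is `ℓ : Y ⟶ K` with `y ≫ ℓ = k` and `ℓ ≫ q = e ≫ l`.
(1) If `Hpc e e'` then `Lft e ↔ Lft e'`: let `H : Y ⊗ Δ[1] ⟶ Z` be a homotopy from `e` to `e'`, assume `Lft e`, let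
`k ≫ q = y ≫ e' ≫ l`.  The path `y ▷ Δ[1] ≫ H ≫ l` in `L` ends at `k ≫ q`; by `S_H1` for `∅ ⟶ Δ[0]` it lifts to a
path `γ'` in `K` which ends at `k`; by `Lft e` there is `ℓ₀ : Y ⟶ K` over `e ≫ l` with `y ≫ ℓ₀` = the start of
`γ'`; by `S_H0` for the monomorphism `y` (`b = ℓ₀`, `h = γ'`, `g = H ≫ l`) there is `H' : Y ⊗ Δ[1] ⟶ K` over `H ≫ l`;
take `ℓ = ι₁ ≫ H'`.  The other direction is the same with `S_H0` and `S_H1` exchanged.  So `Lft` is invariant
under `Relation.EqvGen Hpc`.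
(2) `Lft (g ≫ f)`: use `Ac (y ≫ g)` (`S_V`) with the map `f ≫ l : X ⟶ L`.
(3) So `Lft (𝟙 Y)`; this says `Ac y` for all `y : Δ[0] ⟶ Y`, and there is such a `y` (a vertex of `X` composed with
`f`). -/
def S_RET : Prop := ∀ {X Y : SSet.{u}} (f : X ⟶ Y) (g : Y ⟶ X),
  Relation.EqvGen Hpc (g ≫ f) (𝟙 Y) → Contr X → Contr Y

/-- JOB MC (uses `S_23`, `S_V`).  Proof.  For a vertex `x` of `A` both `x` and `x ≫ i` are in `Ac`. -/
def S_MC : Prop := ∀ {A B : SSet.{u}} (i : A ⟶ B), Mono i → Contr A → Contr B → Ac i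

/-- JOB ACW (uses `S_HE`).
Proof.  Let `K` be a Kan complex; then `K ⟶ ⊤` is in `KF`.  Surjectivity: a map `A ⟶ K` extends along `i`.
Injectivity: show by induction on `Relation.EqvGen Hpc x y` (`x y : A ⟶ K`) that for all `b`, `c : B ⟶ K` with
`i ≫ b = x`, `i ≫ c = y` one has `Relation.EqvGen Hpc b c`: for `Hpc x y` use `S_HE` (with `L = ⊤`), for `refl` use
`S_HE` with the constant homotopy, for `trans` choose an extension of the middle map. -/
def S_ACW : Prop := ∀ {A B : SSet.{u}} (i : A ⟶ B), Ac i → WeakEq i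

/-- JOB HEW.  Homotopy equivalences are weak homotopy equivalences (straight from the definitions:
homotopic maps induce the same map on homotopy classes; `Hpc a b` implies `Hpc (a ≫ c) (b ≫ c)`). -/
def S_HEW : Prop := ∀ {X Y : SSet.{u}} (f : X ⟶ Y) (g : Y ⟶ X),
  Relation.EqvGen Hpc (f ≫ g) (𝟙 X) → Relation.EqvGen Hpc (g ≫ f) (𝟙 Y) → WeakEq f

/-- JOB HEW (same job). -/
def S_WC : Prop := ∀ {X Y Z : SSet.{u}} (f : X ⟶ Y) (g : Y ⟶ Z), WeakEq f → WeakEq g → WeakEq (f ≫ g)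

/-- JOB HEW (same job, uses `S_TFE`).  Proof.  `q` has a section `s` (lift along `∅ ⟶ Y`), and by `S_TFE` the maps
`q ≫ s` and `𝟙 X` are homotopic (over the constant homotopy `fst ≫ q`).  Use `S_HEW`. -/
def S_TFW : Prop := ∀ {X Y : SSet.{u}} (q : X ⟶ Y), TF q → WeakEq q

/-- JOB STD (uses `S_RET`, `S_TFE`).  Proof.  As in `S_TFW` there is a section `s` of `q` with `q ≫ s` homotopic to
`𝟙 X`; use `S_RET` with `f = s`, `g = q`. -/
def S_TFC : Prop := ∀ {X Y : SSet.{u}} (q : X ⟶ Y), TF q → Contr Y → Contr X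

/-- JOB STD (same job).  The standard simplices are contractible.  Proof.  `𝟙 Δ[0]` is in `Ac`, so `Δ[0]` is
contractible; the identity of `Δ[n]` is homotopic to a constant map (`Δ[n]` is the nerve of a category with a
terminal object; or give the homotopy directly); use `S_RET` with `X = Δ[0]`. -/
def S_STD : Prop := ∀ n : ℕ, Contr (Δ[n] : SSet.{u})

/-- JOB CELL.  Attaching cells.
Proof.  Put `S_n = E ⊔ (B.skeleton n).preimage r`.  Let `q : K ⟶ L` be in `KF`, `f : S_n ⟶ K`, `g : S_{n+1} ⟶ L` be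
compatible.  For a nondegenerate `b ∈ B_n` let `W_b` be the pullback of `Z` along `b : Δ[n] ⟶ B`; its simplices of
dimension `m` are the pairs `(z, s)`, `z ∈ Z_m`, `s : [m] ⟶ [n]`, `r z = s^* b`.  It maps to `S_{n+1}`, and
`E.preimage fst ⊔ ∂Δ[n].preimage snd` maps to `S_n`.  By hypothesis there is a lift `ℓ_b : W_b ⟶ K`.  Define
`F : S_{n+1} ⟶ K` on `z ∈ (S_{n+1})_m` by `f z` if `z ∈ S_n`; otherwise `r z = s^* b` with unique `b ∈ B_n`
nondegenerate and `s : [m] ⟶ [n]` surjective (a simplex of `B.skeleton (n+1)` not in `B.skeleton n`), and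
`F z = ℓ_b (z, s)`.  Naturality for `θ : [m'] ⟶ [m]`: if `s θ` is surjective then `θ^* z` is treated by `(b, s θ)`
(or it is in `E`, where `ℓ_b` agrees with `f`), otherwise `(θ^* z, s θ)` is in `∂Δ[n].preimage snd` where `ℓ_b` agrees
with `f`.  In general: `F z = ℓ_b (z, s)` for all `(z, s) ∈ W_b`, `b` nondegenerate in `B_n`.
(Alternatively: pull back the pushout square `SSet.relativeCellComplexOfMono.isPushout` for `⊥ ⟶ B`, see
Mathlib/AlgebraicTopology/SimplicialSet/Skeleton.lean; `Ac` is closed under coproducts and pushouts.) -/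
def S_CELL : Prop := ∀ {Z B : SSet.{u}} (r : Z ⟶ B) (E : Z.Subcomplex) (n : ℕ),
  (∀ (b : Δ[n] ⟶ B) (W : SSet.{u}) (fst : W ⟶ Z) (snd : W ⟶ Δ[n]), IsPullback fst snd r b →
    Ac (E.preimage fst ⊔ ∂Δ[n].preimage snd).ι) →
  ∀ h : E ⊔ (B.skeleton n).preimage r ≤ E ⊔ (B.skeleton (n + 1)).preimage r,
    Ac (SSet.Subcomplex.homOfLE h)

/-- JOB SEQ.  Sequential unions.
Proof.  Let `q : K ⟶ L` be in `KF`, `f₀ : S 0 ⟶ K`, `l : Z ⟶ L` compatible.  Choose successively `f_n : S n ⟶ K` over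
`l` with `f_{n+1}` extending `f_n`, and glue: `z ∈ Z_m` goes to `f_n z` for any `n` with `z ∈ S n`. -/
def S_SEQ : Prop := ∀ {Z : SSet.{u}} (S : ℕ →o Z.Subcomplex),
  (∀ n, Ac (SSet.Subcomplex.homOfLE (S.monotone (Nat.le_succ n)))) → ⨆ n, S n = ⊤ → Ac (S 0).ι

/-- JOB LGA (uses `S_CELL`, `S_SEQ`, `S_23`).  A local to global principle.
Proof.  Call the hypothesis (H).  If `(W, fst, snd)` is a pullback of `r` along `b : Δ[n] ⟶ B` then (H) holds for
`snd : W ⟶ Δ[n]` and `E.preimage fst` (pasting of pullback squares).  Claim `T(k)`: if (H) holds for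
`r : Z ⟶ Δ[k]` and `E` then `(E ⊔ ∂Δ[k].preimage r).ι` is in `Ac`.  Strong induction: assume `T(j)` for `j < k`; put
`S_j = E ⊔ (Δ[k].skeleton j).preimage r`.  By `S_CELL` and `T(j)` the maps `S_j ⟶ S_{j+1}`, `j < k`, are in `Ac`, so
`S_0 = E ⟶ S_k = E ⊔ ∂Δ[k].preimage r` is (`Δ[k].skeleton k = ∂Δ[k]`).  The composite `E ⟶ S_k ⟶ Z` is in `Ac` by
(H) for `b = 𝟙`, so `S_k ⟶ Z` is in `Ac` by `S_23`.  Finally, for general `B`, all `S_n ⟶ S_{n+1}` are in `Ac` by
`S_CELL` and `T(n)`, and `S_SEQ` gives the result (`SSet.iSup_skeleton`). -/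
def S_LGA : Prop := ∀ {Z B : SSet.{u}} (r : Z ⟶ B) (E : Z.Subcomplex),
  (∀ (n : ℕ) (b : Δ[n] ⟶ B) (W : SSet.{u}) (fst : W ⟶ Z) (snd : W ⟶ Δ[n]), IsPullback fst snd r b →
    Ac (E.preimage fst).ι) →
  Ac E.ι

/-- JOB LG (uses `S_LGA`, `S_MC`, `S_TFC`, `S_STD`, `S_ACW`, `S_TFW`, `S_WC`).  Quillen's theorem A for simplicial
sets.
Proof.  Factor `p` as a monomorphism `i : E ⟶ Z` followed by `r : Z ⟶ B` with `TF r` (small object argument,
`SSet.rlp_monomorphisms`, `HasFunctorialFactorization`; see how Mathlib treats `modelCategoryQuillen.I`).  Let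
`E' = range i`.  For `b : Δ[n] ⟶ B` and a pullback `(W, fst, snd)` of `r` along `b`: `snd` has `TF` (stable under base
change), so `W` is contractible by `S_TFC`, `S_STD`; `E'.preimage fst` is isomorphic to a pullback of `p` along `b`,
hence contractible by hypothesis; so `(E'.preimage fst).ι` is in `Ac` by `S_MC`.  By `S_LGA` `E'.ι` is in `Ac`, so `i` is
in `Ac`, `WeakEq i` by `S_ACW`, `WeakEq r` by `S_TFW`, and `WeakEq p` by `S_WC`. -/
def S_LG : Prop := ∀ {E B : SSet.{u}} (p : E ⟶ B),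
  (∀ (n : ℕ) (b : Δ[n] ⟶ B) (W : SSet.{u}) (fst : W ⟶ E) (snd : W ⟶ Δ[n]), IsPullback fst snd p b →
    Contr W) →
  WeakEq p

/-! ### Part 2: nerves -/

/-- JOB NAT.  A natural transformation gives a homotopy of nerves.  Proof.  A simplex of
`nerve X ⊗ Δ[1]` of dimension `m` is a chain `c : [m] ⥤ X` with a map `s : [m] ⟶ [1]`; send it to the chain which is
`F (c j)` if `s j = 0` and `G (c j)` if `s j = 1`, i.e. use the functor `X × [1] ⥤ Y` given by `α`. -/
def S_NAT : Prop := ∀ {X Y : Type u} [SmallCategory X] [SmallCategory Y] (F G : X ⥤ Y) (_ : F ⟶ G),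
  Hpc (nerveMap F) (nerveMap G)

/-- JOB ZR (uses `S_NAT`, `S_RET`).  Proof.  `nerveMap` of a zigzag is in `Relation.EqvGen Hpc`. -/
def S_ZR : Prop := ∀ {X Y : Type u} [SmallCategory X] [SmallCategory Y] (F : X ⥤ Y) (G : Y ⥤ X),
  Zigzag (G ⋙ F) (𝟭 Y) → Contr (nerve X) → Contr (nerve Y)

/-- JOB ZR (same job, uses `S_NAT`, `S_HEW`). -/
def S_ZW : Prop := ∀ {X Y : Type u} [SmallCategory X] [SmallCategory Y] (F : X ⥤ Y) (G : Y ⥤ X),
  Zigzag (F ⋙ G) (𝟭 X) → Zigzag (G ⋙ F) (𝟭 Y) → WeakEq (nerveMap F)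

/-- JOB ZR (same job, uses `S_NAT`, `S_RET`, `S_STD`).  Proof.  There is a natural transformation from the identity
to the constant functor with value `t`; the nerve of the latter factors through `Δ[0]`. -/
def S_TERM : Prop := ∀ {X : Type u} [SmallCategory X] (t : X) (_ : IsTerminal t), Contr (nerve X)

/-- JOB ZR (same job, uses `S_TERM`).  Proof.  `(a, 𝟙)` is a terminal object of the category of elements. -/
def S_REP : Prop := ∀ {A : Type u} [SmallCategory A] (a : A), Asph (yoneda.obj a)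

/-! ### Part 3: presheaves -/

/-- JOB SH (uses `S_ZR`).
Proof.  Let `s`, `h` be as in the definition of `Shr`.  Define `T : El E ⥤ El E` by
`(a, x) ↦ (om a, h (pi^* x) (tau a))`.  The maps `sec a (zero a)` give a natural transformation `𝟭 ⟶ T`, the maps
`sec a (one a)` a natural transformation `El.map p ⋙ El.map s ⟶ T`.  Use `S_ZR` with `F = El.map s`, `G = El.map p`. -/
def S_SH : Prop := ∀ {A : Type u} [SmallCategory A] (J : Itv A) {E B : Aᵒᵖ ⥤ Type u} (p : E ⟶ B),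
  Shr J p → Asph B → Asph E

/-- JOB SH (same job).  Proof.  Pull back the section and the homotopy (pullbacks of presheaves are computed
objectwise). -/
def S_SHP : Prop := ∀ {A : Type u} [SmallCategory A] (J : Itv A) {E B B' P : Aᵒᵖ ⥤ Type u} (p : E ⟶ B)
  (g : B' ⟶ B) (g' : P ⟶ E) (p' : P ⟶ B'), IsPullback g' p' p g → Shr J p → Shr J p'

/-- JOB CYL.  Mapping cylinders.
Proof.  For `φ : X ⟶ Y` let `Z(φ)(a)` be the quotient of `Y(a) ⊕ X(a) × I(a)` by the relation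
`inr (x, one) ~ inl (φ x)` (a `Quot`); it is functorial in `φ` (as an object of `Arrow`).  `i` sends `x` to
`inr (x, zero)`, `p` sends `inl y` to `y`, `inr (x, t)` to `φ x`.  `i` is a monomorphism: the function
`Z(φ)(a) ⟶ Option X(a)` with `inl y ↦ none`, `inr (x, t) ↦ if t = one then none else some x` is well defined and
`zero ≠ one`.  `p` is shrinkable: `s y = inl y`, `h (inl y) t = inl y`, `h (inr (x, t')) t = inr (x, sup t' t)`
(well defined by `one_sup`; `sup_zero`, `sup_one` give the ends). -/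
def S_CYL : Prop := ∀ {A : Type u} [SmallCategory A] (J : Itv A),
  ∃ (Z : Arrow (Aᵒᵖ ⥤ Type u) ⥤ (Aᵒᵖ ⥤ Type u)) (i : Arrow.leftFunc ⟶ Z) (p : Z ⟶ Arrow.rightFunc),
    (∀ g, i.app g ≫ p.app g = g.hom) ∧ (∀ g, Mono (i.app g)) ∧ (∀ g, Shr J (p.app g))

/-- JOB GL (uses `S_MC`).  Gluing.
Proof.  (1) The square of nerves of categories of elements is a pushout square in `SSet`: this can be checked in
each dimension `m`, where the `m`-simplices of `nerve (El P)` are the pairs `(c, x)`, `c` a chain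
`c_0 ⟶ ... ⟶ c_m` in `A`, `x ∈ P(c_m)` (the other elements are restrictions of `x`), naturally in `P`; and for
each `a` the square of the sets `P_i(a)` is a pushout square (coproducts of pushout squares are pushout squares;
or use that `f_a` is injective: `P(a)` is the disjoint union of the image of `P_2(a)`, which maps injectively,
and of the complement of the image of `P_0(a)` in `P_1(a)`; see e.g. `Types.isPushout_of_isPullback_of_mono'`).
(2) `nerve (El P0) ⟶ nerve (El P1)` is a monomorphism, so it is in `Ac` by `S_MC`; hence so is its pushout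
`nerve (El P2) ⟶ nerve (El P)` (`Ac` is a class `llp`), and composition with a vertex in `Ac` gives `Contr`. -/
def S_GL : Prop := ∀ {A : Type u} [SmallCategory A] {P0 P1 P2 P : Aᵒᵖ ⥤ Type u} (f : P0 ⟶ P1)
  (g : P0 ⟶ P2) (g' : P1 ⟶ P) (f' : P2 ⟶ P), Mono f → IsPushout f g g' f' →
  Asph P0 → Asph P1 → Asph P2 → Asph P

/-! ### Part 4: the partial model category -/

/-- Closure of a small full subcategory `U : M ⥤ K` under pushouts of maps in `CQ Q`, pullbacks of maps in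
`FQ Q` and the objects `Z g` (up to isomorphism). -/
def Clo {K : Type (u + 1)} [Category.{u} K] (Q : ObjectProperty K) (Z : Arrow K ⥤ K) {M : Type u}
    [SmallCategory M] (U : M ⥤ K) : Prop :=
  (∀ {a b c : M} (f : U.obj a ⟶ U.obj b) (g : U.obj a ⟶ U.obj c) {P : K} (g' : U.obj b ⟶ P)
    (f' : U.obj c ⟶ P), CQ Q f → IsPushout f g g' f' → ∃ m, Nonempty (U.obj m ≅ P)) ∧
  (∀ {a b c : M} (f : U.obj b ⟶ U.obj a) (g : U.obj c ⟶ U.obj a) {P : K} (g' : P ⟶ U.obj b)
    (f' : P ⟶ U.obj c), FQ Q f → IsPullback g' f' f g → ∃ m, Nonempty (U.obj m ≅ P)) ∧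
  (∀ {a b : M} (f : U.obj a ⟶ U.obj b), ∃ m, Nonempty (U.obj m ≅ Z.obj (Arrow.mk f)))

/-- JOB SM.  Small closures.
Proof.  Call a family `X : I → K` (`I : Type u`) with `Q (X i)` for all `i` good.  From a good family form the
good family indexed by `I ⊕ {(a, b, c, f, g) : f : X a ⟶ X b with CQ Q f, g : X a ⟶ X c} ⊕
{(a, b, c, f, g) : f : X b ⟶ X a with FQ Q f, g : X c ⟶ X a} ⊕ {(a, b, f) : f : X a ⟶ X b}`, with the objects `X i`,
`pushout f g`, `pullback f g`, `Z f` (these are in `Q` by definition of `CQ`, `FQ` and by `hZ`; the index type is in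
`Type u` as the homs are).  Iterate `n` times starting with `X₀`, let `M` be the sum of the index types over `n : ℕ`,
with the homs of `K` (`InducedCategory`), `U` the inclusion (an object of level `n` also has level `n + 1`, so finitely
many objects are isomorphic to objects of a common level). -/
def S_SM : Prop := ∀ {K : Type (u + 1)} [Category.{u} K] [HasPushouts K] [HasPullbacks K]
  (Q : ObjectProperty K) [Q.IsClosedUnderIsomorphisms] (Z : Arrow K ⥤ K)
  (_ : ∀ g : Arrow K, Q g.left → Q g.right → Q (Z.obj g)) {J : Type u} (X₀ : J → K)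
  (_ : ∀ j, Q (X₀ j)),
  ∃ (M : Type u) (_ : SmallCategory M) (U : M ⥤ K), U.Full ∧ U.Faithful ∧ (∀ m, Q (U.obj m)) ∧
    (∀ j, ∃ m, Nonempty (U.obj m ≅ X₀ j)) ∧ Clo Q Z U

/-- JOB PMS.  The partial model structure.
Proof.  `W = ⊤`, `C f` iff `CQ Q (U.map f)`, `F f` iff `FQ Q (U.map f)`.  Pushouts: for `f` in `C` and `g` in `M` the
pushout `P` of `U f` and `U g` in `K` is isomorphic to some `U m`, and then `m` is a pushout in `M` (`U` is fully
faithful); conversely every pushout square of `f`, `g` in `M` is mapped by `U` to a pushout square of `K` (uniqueness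
up to isomorphism); its map `f'` is again in `C` by pasting of pushout squares.  Dually for `F`.  The functorial
factorization: for an arrow `g` of `M` choose `z g` with `U (z g) ≅ Z (U g)`; as `U` is fully faithful `z` becomes a
functor (for instance through `Functor.essImage` / `Functor.FullyFaithful.preimage`), and `i`, `p` lift. -/
def S_PMS : Prop := ∀ {K : Type (u + 1)} [Category.{u} K] [HasPushouts K] [HasPullbacks K]
  (Q : ObjectProperty K) [Q.IsClosedUnderIsomorphisms] (Z : Arrow K ⥤ K)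
  (i : Arrow.leftFunc ⟶ Z) (p : Z ⟶ Arrow.rightFunc) (_ : ∀ g, i.app g ≫ p.app g = g.hom)
  (_ : ∀ g : Arrow K, Q g.left → Q g.right → CQ Q (i.app g) ∧ FQ Q (p.app g))
  {M : Type u} [SmallCategory M] (U : M ⥤ K) [U.Full] [U.Faithful] (_ : ∀ m, Q (U.obj m))
  (_ : Clo Q Z U), ∃ S : PartialModel M, S.W = ⊤

/-- JOB TOT (uses `S_ZR`).
Proof.  `b : Δ[n] ⟶ nerve M` is a chain, i.e. a functor `σ : Fin (n + 1) ⥤ M`.  (1) The pullback is isomorphic to the
nerve of `Tot (σ ⋙ U)`: a simplex of the nerve of `Tot U` of dimension `m` is a triple of a chain `μ : [m] ⥤ M`, a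
chain `α : [m] ⥤ A` and elements `x_j ∈ U(μ_j)(α_j)` with the compatibility conditions; if `μ = s ⋙ σ` for
`s : [m] ⥤ [n]` then this is the same as a simplex of the nerve of `Tot (σ ⋙ U)`.
(2) `(i, a, x) ↦ (a, U(σ_i ⟶ σ_n) x)` is a functor `R : Tot (σ ⋙ U) ⥤ El (U (σ_n))`, `(a, y) ↦ (n, a, y)` a functor `L` in
the other direction, and there is a natural transformation `𝟭 ⟶ R ⋙ L`.  Use `S_ZR` and `Asph (U (σ_n))`. -/
def S_TOT : Prop := ∀ {A M : Type u} [SmallCategory A] [SmallCategory M] (U : M ⥤ Aᵒᵖ ⥤ Type u)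
  (_ : ∀ m, Asph (U.obj m)) (n : ℕ) (b : Δ[n] ⟶ nerve M) (W : SSet.{u})
  (fst : W ⟶ nerve (Tot U)) (snd : W ⟶ Δ[n]),
  IsPullback fst snd (nerveMap (Tot.fst U)) b → Contr W

/-- JOB TA (uses `S_TOT`, `S_LG`, `S_ZW`, `S_WC`).
Proof.  By `S_TOT` and `S_LG` the projection `Tot U ⥤ M` is a weak equivalence.  The functor `s : A ⥤ Tot U`,
`a ↦ (G a, a, the element of U(G a)(a) which corresponds to 𝟙 a under the isomorphism `G ⋙ U ≅ yoneda`)` has the
left inverse `(m, a, x) ↦ a`, and there is a natural transformation from `(m, a, x) ↦ s a` to the identity: the map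
`G a ⟶ m` is the one which corresponds to `x` (Yoneda lemma, `U` fully faithful).  So `s` is a weak equivalence by
`S_ZW`, and `G` is the composite of `s` and the projection. -/
def S_TA : Prop := ∀ {A M : Type u} [SmallCategory A] [SmallCategory M] (U : M ⥤ Aᵒᵖ ⥤ Type u)
  [U.Full] [U.Faithful] (G : A ⥤ M) (_ : G ⋙ U ≅ yoneda) (_ : ∀ m, Asph (U.obj m)),
  WeakEq (nerveMap G)

/-- JOB AX.  Categories with an interval.
Proof.  Let `T : ℕ → Type u`, `T 0 = PUnit`, `T (n + 1) = T n × ULift Bool`.  `X` has the objects `(d, n)`, `d : D`, `n : ℕ`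
(lifted to `Type u`), and the maps `(d, m) ⟶ (e, n)` are the pairs of a map `d ⟶ e` and a function `T m → T n`.
`I (d, n) = (T n → ULift Bool)`, `zero`, `one` the constant functions (`T n` is not empty), `sup` the pointwise
maximum, `om (d, n) = (d, n + 1)`, `pi` and `tau` the two projections of `T n × ULift Bool`, `sec (d, n) t` the
function `x ↦ (x, t x)`.  `F d = (d, 0)`, `G (d, n) = d`: `F ⋙ G = 𝟭`, and the functions `T n → T 0` give a natural
transformation `𝟭 ⟶ G ⋙ F`. -/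
def S_AX : Prop := ∀ (D : Type u) [SmallCategory D], ∃ (X : Type u) (_ : SmallCategory X)
  (_ : Itv X) (F : D ⥤ X) (G : X ⥤ D), Zigzag (F ⋙ G) (𝟭 D) ∧ Zigzag (G ⋙ F) (𝟭 X)

end Pool.Agent.Q213.PM
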